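import Mathlib

/-!
# Discrepancy of anchored boxes, upper bound for all dimensions: definitions

Digit strings are functions `ℕ → ℕ` of which the first `m` values matter.  `F h B m x a` is the
probability that the string with digits `V t * B + x t` is lexicographically at most `a`, for
uniform independent `V t < h`.
-/

namespace DiscAll

open Finset

/-- `P(V * B + x ≤ a)`, digits `V t < h` uniform, first `m` digits -/
noncomputable def F (h B : ℕ) : ℕ → (ℕ → ℕ) → (ℕ → ℕ) → ℝ
  | 0, _, _ => 1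
  | m + 1, x, a => (((a 0 / B : ℕ) : ℝ) + (if x 0 < a 0 % B then 1 else 0)
      + (if x 0 = a 0 % B then F h B m (fun t => x (t + 1)) (fun t => a (t + 1)) else 0)) / h

/-- value of a digit string -/
def val (b m : ℕ) (x : ℕ → ℕ) : ℕ := ∑ t ∈ range m, x t * b ^ (m - 1 - t)

/-- strings of `m` digits of the base net -/
abbrev Y (p m : ℕ) := Fin m → ZMod p

variable {p m : ℕ}

/-- natural digits of an element of `Y` -/
def ext (y : Y p m) (t : ℕ) : ℕ := if h : t < m then (y ⟨t, h⟩).val else 0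

/-- agreement in the first `t` positions -/
def Agr (t : ℕ) (y y' : Y p m) : Prop := ∀ j : Fin m, (j : ℕ) < t → y j = y' j

instance (t : ℕ) (y y' : Y p m) : Decidable (Agr t y y') := by unfold Agr; infer_instance

/-- average over the positions `≥ t` -/
noncomputable def E [NeZero p] (t : ℕ) (u : Y p m → ℝ) (y : Y p m) : ℝ :=
  (∑ y' with Agr t y y', u y') / (p : ℝ) ^ (m - t)

/-- the martingale differences of the averages -/
noncomputable def P [NeZero p] (t : ℕ) (u : Y p m → ℝ) (y : Y p m) : ℝ :=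
  if t = 0 then E 0 u y else E t u y - E (t - 1) u y

/-- the property of the test functions -/
def Star (w : ℝ) (X : ℕ) (a : Y p m) (u : Y p m → ℝ) : Prop :=
  ∀ (τ : ℕ) (y y' : Y p m), Agr τ y y' →
    |u y - u y'| ≤ if τ ≤ X ∧ Agr τ y a then w ^ (τ + 1) else 0

/-- truncated expansion of a product -/
noncomputable def S [NeZero p] (u : ℕ → Y p m → ℝ) : ℕ → ℕ → (ℕ → Y p m) → ℝ
  | 0, _, _ => 1
  | n + 1, τ, y => ∑ t ∈ range (τ + 1), P t (u n) (y n) * S u n (τ - t) y

/-- number of shapes of total `τ` that agree with `a` -/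
noncomputable def Q (X : ℕ → ℕ) (a : ℕ → Y p m) : ℕ → ℕ → (ℕ → Y p m) → ℝ
  | 0, τ, _ => if τ = 0 then 1 else 0
  | n + 1, τ, y => ∑ t ∈ range (τ + 1),
      (if t ≤ X n + 1 ∧ Agr (t - 1) (y n) (a n) then 1 else 0) * Q X a n (τ - t) y

/-- number of shapes of total `τ` below `X + 1` -/
noncomputable def nn (X : ℕ → ℕ) : ℕ → ℕ → ℝ
  | 0, τ => if τ = 0 then 1 else 0
  | n + 1, τ => ∑ t ∈ range (τ + 1), (if t ≤ X n + 1 then 1 else 0) * nn X n (τ - t)

/-- the base net: exact equidistribution in the elementary boxes of total resolution `≤ m` -/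
def Net {U : Type} [Fintype U] (k : ℕ) (z : U → ℕ → Y p m) : Prop :=
  ∀ (s : ℕ → ℕ) (c : ℕ → Y p m), ∑ i ∈ range k, s i ≤ m →
    #{f : U | ∀ i ∈ range k, Agr (s i) (z f i) (c i)} * p ^ (∑ i ∈ range k, s i) = p ^ m

/-- injectivity of a tower in all boxes of total resolution `m` -/
def Inj {L : Type} (k m : ℕ) (x : L → ℕ → ℕ → ℕ) : Prop :=
  ∀ s : ℕ → ℕ, ∑ i ∈ range k, s i = m → ∀ l l' : L,
    (∀ i ∈ range k, ∀ t < s i, x l i t = x l' i t) → l = l'

/-- length of agreement of `x` with `a` modulo `B` -/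
noncomputable def len (B m : ℕ) (x a : ℕ → ℕ) : ℕ :=
  Nat.findGreatest (fun X => ∀ t < X, x t = a t % B) m

/-- thresholds -/
abbrev Thr (k m b : ℕ) := Fin k → Fin m → Fin b

/-- natural digits of a threshold -/
def thr {k m b : ℕ} (a : Thr k m b) (i t : ℕ) : ℕ :=
  if h : i < k ∧ t < m then (a ⟨i, h.1⟩ ⟨t, h.2⟩ : ℕ) else 0

/-- the smoothed discrepancy of a tower in base `B`, outer base `h`, `b = h * B` -/
noncomputable def M {L : Type} [Fintype L] (k m b h B : ℕ) (x : L → ℕ → ℕ → ℕ) (a : ℕ → ℕ → ℕ) :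
    ℝ :=
  (h : ℝ) ^ m * ∑ l, ∏ i ∈ range k, F h B m (x l i) (a i)
    - (b : ℝ) ^ m * ∏ i ∈ range k, F b 1 m (fun _ => 0) (a i)

/-- the potential -/
noncomputable def Psi {L : Type} [Fintype L] (k m b h B : ℕ) (s : ℝ) (x : L → ℕ → ℕ → ℕ) : ℝ :=
  ∑ a : Thr k m b, (Real.exp (s * M k m b h B x (thr a)) + Real.exp (-(s * M k m b h B x (thr a))))

/-- one more level: shifts `φ` of the base net over the points of the tower -/
def up {L U : Type} (B : ℕ) (x : L → ℕ → ℕ → ℕ) (z : U → ℕ → Y p m) (φ : L → ℕ → Y p m)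
    (q : L × U) (i t : ℕ) : ℕ :=
  ext (z q.2 i + φ q.1 i) t * B + x q.1 i t

end DiscAll
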